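import Pool.Agent.Q61.WE.Stm

set_option autoImplicit false

/-! Project WE: choice of the phase by averaging. -/

namespace Pool.Agent.Q208.WE

open Pool.Agent.Q61.WE
open MeasureTheory Filter Topology Set Metric
open scoped ENNReal NNReal

theorem avg : S_AVG := by
  intro n V hV hVb f hf J₁ J₂ hJ₁ hJ₂ α₁ α₂ μ₁ μ₂ hμ₁ hμ₂ h₁ h₂
  have hVm : MeasurableSet V := hV.measurableSet
  have hVf : volume V < ∞ := hVb.measure_lt_top
  set ν : Measure (E n) := volume.restrict V with hν
  have : IsFiniteMeasure ν := ⟨by rw [hν, Measure.restrict_apply_univ]; exact hVf⟩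
  set τ : Measure ℝ := volume.restrict (Icc (0:ℝ) 1) with hτ
  have : IsFiniteMeasure τ := ⟨by
    rw [hτ, Measure.restrict_apply_univ, Real.volume_Icc]; exact ENNReal.ofReal_lt_top⟩
  -- one set
  have key : ∀ (J : Set ℝ) (α : ℝ), IsOpen J →
      (∀ c : ℝ, α ≤ volume.real (J ∩ Icc c (c + 1))) →
      Integrable (fun θ : ℝ => volume.real {y : E n | y ∈ V ∧ f y + θ ∈ J}) τ ∧
      α * volume.real V ≤ ∫ θ, volume.real {y : E n | y ∈ V ∧ f y + θ ∈ J} ∂τ := by
    intro J α hJ hα
    have hJm : MeasurableSet J := hJ.measurableSet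
    have hg : Measurable (fun p : ℝ × E n => J.indicator (fun _ => (1:ℝ)) (f p.2 + p.1)) := by
      have h1 : Measurable (fun p : ℝ × E n => f p.2 + p.1) :=
        ((hf.measurable.comp measurable_snd).add measurable_fst)
      exact (measurable_const.indicator hJm).comp h1
    have hint : Integrable (fun p : ℝ × E n => J.indicator (fun _ => (1:ℝ)) (f p.2 + p.1))
        (τ.prod ν) := by
      refine Integrable.of_bound hg.aestronglyMeasurable 1 (Eventually.of_forall fun p => ?_)
      by_cases h : f p.2 + p.1 ∈ J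
      · simp [Set.indicator_of_mem h]
      · simp [Set.indicator_of_notMem h]
    have e1 : ∀ θ : ℝ, volume.real {y : E n | y ∈ V ∧ f y + θ ∈ J} =
        ∫ y, J.indicator (fun _ => (1:ℝ)) (f y + θ) ∂ν := by
      intro θ
      have hm : MeasurableSet {y : E n | f y + θ ∈ J} :=
        (hf.measurable.add_const θ) hJm
      have : (fun y : E n => J.indicator (fun _ => (1:ℝ)) (f y + θ)) =
          {y : E n | f y + θ ∈ J}.indicator (fun _ => (1:ℝ)) := by
        funext y
        by_cases h : f y + θ ∈ J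
        · rw [Set.indicator_of_mem h, Set.indicator_of_mem (show y ∈ {y : E n | f y + θ ∈ J} from h)]
        · rw [Set.indicator_of_notMem h,
            Set.indicator_of_notMem (show y ∉ {y : E n | f y + θ ∈ J} from h)]
      rw [this, integral_indicator_const _ hm, smul_eq_mul, mul_one, hν,
        measureReal_restrict_apply hm]
      congr 1
      ext y
      simp only [Set.mem_ofPred_eq, Set.mem_inter_iff]
      tauto
    have e2 : ∀ y : E n, volume.real (J ∩ Icc (f y) (f y + 1)) =
        ∫ θ, J.indicator (fun _ => (1:ℝ)) (f y + θ) ∂τ := by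
      intro y
      have hm : MeasurableSet {θ : ℝ | f y + θ ∈ J} :=
        (measurable_const_add (f y)) hJm
      have : (fun θ : ℝ => J.indicator (fun _ => (1:ℝ)) (f y + θ)) =
          {θ : ℝ | f y + θ ∈ J}.indicator (fun _ => (1:ℝ)) := by
        funext θ
        by_cases h : f y + θ ∈ J
        · rw [Set.indicator_of_mem h,
            Set.indicator_of_mem (show θ ∈ {θ : ℝ | f y + θ ∈ J} from h)]
        · rw [Set.indicator_of_notMem h,
            Set.indicator_of_notMem (show θ ∉ {θ : ℝ | f y + θ ∈ J} from h)]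
      rw [this, integral_indicator_const _ hm, smul_eq_mul, mul_one, hτ,
        measureReal_restrict_apply hm]
      have h3 : {θ : ℝ | f y + θ ∈ J} ∩ Icc 0 1 =
          (fun θ => f y + θ) ⁻¹' (J ∩ Icc (f y) (f y + 1)) := by
        ext θ
        simp only [Set.mem_inter_iff, Set.mem_ofPred_eq, Set.mem_Icc, Set.mem_preimage]
        constructor
        · rintro ⟨a, b, c⟩; exact ⟨a, by linarith, by linarith⟩
        · rintro ⟨a, b, c⟩; exact ⟨a, by linarith, by linarith⟩
      rw [h3]
      unfold Measure.real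
      rw [measure_preimage_add]
    have hfi : Integrable (fun θ : ℝ => ∫ y, J.indicator (fun _ => (1:ℝ)) (f y + θ) ∂ν) τ :=
      hint.integral_prod_left
    refine ⟨?_, ?_⟩
    · simp_rw [e1]; exact hfi
    · simp_rw [e1]
      have hsw : ∫ θ, ∫ y, J.indicator (fun _ => (1:ℝ)) (f y + θ) ∂ν ∂τ =
          ∫ y, ∫ θ, J.indicator (fun _ => (1:ℝ)) (f y + θ) ∂τ ∂ν :=
        integral_integral_swap hint
      rw [hsw]
      have hfi2 : Integrable (fun y : E n => ∫ θ, J.indicator (fun _ => (1:ℝ)) (f y + θ) ∂τ) ν :=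
        hint.integral_prod_right
      calc α * volume.real V = ∫ _y : E n, α ∂ν := by
            rw [integral_const, smul_eq_mul, hν, measureReal_restrict_apply MeasurableSet.univ,
              Set.univ_inter, mul_comm]
        _ ≤ ∫ y, ∫ θ, J.indicator (fun _ => (1:ℝ)) (f y + θ) ∂τ ∂ν := by
            refine integral_mono (integrable_const _) hfi2 fun y => ?_
            show α ≤ ∫ θ, J.indicator (fun _ => (1:ℝ)) (f y + θ) ∂τ
            rw [← e2 y]
            exact hα (f y)
  obtain ⟨i1, k1⟩ := key J₁ α₁ hJ₁ h₁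
  obtain ⟨i2, k2⟩ := key J₂ α₂ hJ₂ h₂
  set F : ℝ → ℝ := fun θ => μ₁ * volume.real {y : E n | y ∈ V ∧ f y + θ ∈ J₁} +
    μ₂ * volume.real {y : E n | y ∈ V ∧ f y + θ ∈ J₂} with hF
  have hFi : Integrable F τ := (i1.const_mul μ₁).add (i2.const_mul μ₂)
  have hInt : (μ₁ * α₁ + μ₂ * α₂) * volume.real V ≤ ∫ θ, F θ ∂τ := by
    rw [hF, integral_add (i1.const_mul μ₁) (i2.const_mul μ₂), integral_const_mul,
      integral_const_mul]
    have a1 := mul_le_mul_of_nonneg_left k1 hμ₁
    have a2 := mul_le_mul_of_nonneg_left k2 hμ₂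
    calc (μ₁ * α₁ + μ₂ * α₂) * volume.real V
        = μ₁ * (α₁ * volume.real V) + μ₂ * (α₂ * volume.real V) := by ring
      _ ≤ _ := add_le_add a1 a2
  have hvol : volume (Icc (0:ℝ) 1) = 1 := by rw [Real.volume_Icc]; simp
  obtain ⟨θ, _, hθ⟩ := exists_setAverage_le (μ := volume) (s := Icc (0:ℝ) 1) (f := F)
    (by rw [hvol]; exact one_ne_zero) (by rw [hvol]; exact ENNReal.one_ne_top) hFi
  refine ⟨θ, hInt.trans (le_trans (le_of_eq ?_) hθ)⟩
  rw [setAverage_eq]
  unfold Measure.real
  rw [hvol]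
  simp [hτ]

end Pool.Agent.Q208.WE
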