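import Pool.Agent.Q61.WE.Stm

set_option autoImplicit false

/-! Project WE: the Pucci operators. -/

namespace Pool.Agent.Q208.WE

open Pool.Agent.Q61.WE
open MeasureTheory Filter Topology Set Metric Matrix
open scoped ENNReal NNReal

variable {n : ℕ}

/-- symmetric matrices between `a` and `b` -/
def Adm (a b : ℝ) (A : Matrix (Fin n) (Fin n) ℝ) : Prop :=
  Aᵀ = A ∧ ∀ v : Fin n → ℝ, a * (v ⬝ᵥ v) ≤ v ⬝ᵥ (A *ᵥ v) ∧ v ⬝ᵥ (A *ᵥ v) ≤ b * (v ⬝ᵥ v)

theorem spec {X : Matrix (Fin n) (Fin n) ℝ} (hX : X.IsHermitian) :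
    ∃ U : Matrix (Fin n) (Fin n) ℝ, Uᵀ * U = 1 ∧ U * Uᵀ = 1 ∧
      X = U * diagonal hX.eigenvalues * Uᵀ := by
  refine ⟨(hX.eigenvectorUnitary : Matrix (Fin n) (Fin n) ℝ), ?_, ?_, ?_⟩
  · have := Unitary.coe_star_mul_self hX.eigenvectorUnitary
    rw [← this]
    congr 1
  · have := Unitary.coe_mul_star_self hX.eigenvectorUnitary
    rw [← this]
    congr 1
  · have := hX.spectral_theorem
    conv_lhs => rw [this]
    rw [Unitary.conjStarAlgAut_apply]
    congr 1

theorem trace_conj {U : Matrix (Fin n) (Fin n) ℝ} (A : Matrix (Fin n) (Fin n) ℝ)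
    (e : Fin n → ℝ) : (A * (U * diagonal e * Uᵀ)).trace =
      ∑ k, e k * ((fun i => U i k) ⬝ᵥ (A *ᵥ (fun i => U i k))) := by
  have h1 : (A * (U * diagonal e * Uᵀ)).trace = ((Uᵀ * A * U) * diagonal e).trace := by
    rw [← Matrix.mul_assoc, Matrix.trace_mul_comm]
    simp only [Matrix.mul_assoc]
  rw [h1, Matrix.trace]
  refine Finset.sum_congr rfl fun k _ => ?_
  rw [Matrix.diag_apply, Matrix.mul_diagonal, mul_comm]
  congr 1
  rw [Matrix.mul_assoc, Matrix.mul_apply]
  simp only [Matrix.transpose_apply, dotProduct, Matrix.mul_apply, Matrix.mulVec]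

theorem col_one {U : Matrix (Fin n) (Fin n) ℝ} (h : Uᵀ * U = 1) (k : Fin n) :
    (fun i => U i k) ⬝ᵥ (fun i => U i k) = 1 := by
  have := congrFun (congrFun h k) k
  rw [Matrix.mul_apply, Matrix.one_apply_eq] at this
  exact this

theorem ent_lo {lam Lam b e : ℝ} (h1 : lam ≤ b) (h2 : b ≤ Lam) :
    lam * max e 0 - Lam * max (-e) 0 ≤ e * b := by
  rcases le_total e 0 with h | h
  · rw [max_eq_right h, max_eq_left (by linarith)]; nlinarith
  · rw [max_eq_left h, max_eq_right (by linarith)]; nlinarith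

theorem ent_hi {lam Lam b e : ℝ} (h1 : lam ≤ b) (h2 : b ≤ Lam) :
    e * b ≤ Lam * max e 0 - lam * max (-e) 0 := by
  rcases le_total e 0 with h | h
  · rw [max_eq_right h, max_eq_left (by linarith)]; nlinarith
  · rw [max_eq_left h, max_eq_right (by linarith)]; nlinarith

theorem pmin_eq {X : Matrix (Fin n) (Fin n) ℝ} (hX : X.IsHermitian) (lam Lam : ℝ) :
    pucciMin lam Lam X = ∑ k, (lam * max (hX.eigenvalues k) 0 - Lam * max (-hX.eigenvalues k) 0) := by
  unfold pucciMin eigPos eigNeg
  rw [dif_pos hX, dif_pos hX, Finset.sum_sub_distrib, Finset.mul_sum, Finset.mul_sum]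

theorem pmax_eq {X : Matrix (Fin n) (Fin n) ℝ} (hX : X.IsHermitian) (lam Lam : ℝ) :
    pucciMax lam Lam X = ∑ k, (Lam * max (hX.eigenvalues k) 0 - lam * max (-hX.eigenvalues k) 0) := by
  unfold pucciMax eigPos eigNeg
  rw [dif_pos hX, dif_pos hX, Finset.sum_sub_distrib, Finset.mul_sum, Finset.mul_sum]

theorem trace_bounds {lam Lam : ℝ} {X A : Matrix (Fin n) (Fin n) ℝ} (hX : X.IsHermitian)
    (hA : Adm lam Lam A) : pucciMin lam Lam X ≤ (A * X).trace ∧
      (A * X).trace ≤ pucciMax lam Lam X := by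
  obtain ⟨U, h1, _, h3⟩ := spec hX
  have h4 : (A * X).trace = ∑ k, hX.eigenvalues k *
      ((fun i => U i k) ⬝ᵥ (A *ᵥ (fun i => U i k))) := by
    conv_lhs => rw [h3]
    exact trace_conj A _
  have h5 : ∀ k, lam ≤ ((fun i => U i k) ⬝ᵥ (A *ᵥ (fun i => U i k))) ∧
      ((fun i => U i k) ⬝ᵥ (A *ᵥ (fun i => U i k))) ≤ Lam := by
    intro k
    have := hA.2 (fun i => U i k)
    rw [col_one h1 k, mul_one, mul_one] at this
    exact this
  rw [h4, pmin_eq hX, pmax_eq hX]
  exact ⟨Finset.sum_le_sum fun k _ => ent_lo (h5 k).1 (h5 k).2,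
    Finset.sum_le_sum fun k _ => ent_hi (h5 k).1 (h5 k).2⟩

theorem adm_conj {lam Lam : ℝ} {U : Matrix (Fin n) (Fin n) ℝ} (h2 : U * Uᵀ = 1)
    {a : Fin n → ℝ} (ha : ∀ k, lam ≤ a k ∧ a k ≤ Lam) : Adm lam Lam (U * diagonal a * Uᵀ) := by
  refine ⟨?_, fun v => ?_⟩
  · rw [Matrix.transpose_mul, Matrix.transpose_mul, Matrix.transpose_transpose,
      Matrix.diagonal_transpose, Matrix.mul_assoc]
  · set w := Uᵀ *ᵥ v with hw
    have e1 : v ⬝ᵥ ((U * diagonal a * Uᵀ) *ᵥ v) = ∑ k, a k * (w k * w k) := by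
      rw [← Matrix.mulVec_mulVec, ← Matrix.mulVec_mulVec, ← hw, Matrix.dotProduct_mulVec,
        ← Matrix.mulVec_transpose, ← hw]
      simp only [dotProduct, Matrix.mulVec_diagonal]
      exact Finset.sum_congr rfl fun k _ => by ring
    have e2 : v ⬝ᵥ v = ∑ k, w k * w k := by
      have : v ⬝ᵥ v = v ⬝ᵥ ((U * Uᵀ) *ᵥ v) := by rw [h2, Matrix.one_mulVec]
      rw [this, ← Matrix.mulVec_mulVec, ← hw, Matrix.dotProduct_mulVec, ← Matrix.mulVec_transpose,
        ← hw]
      rfl
    rw [e1, e2, Finset.mul_sum, Finset.mul_sum]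
    exact ⟨Finset.sum_le_sum fun k _ => mul_le_mul_of_nonneg_right (ha k).1 (mul_self_nonneg _),
      Finset.sum_le_sum fun k _ => mul_le_mul_of_nonneg_right (ha k).2 (mul_self_nonneg _)⟩

theorem trace_opt {U : Matrix (Fin n) (Fin n) ℝ} (h1 : Uᵀ * U = 1) (a e : Fin n → ℝ) :
    ((U * diagonal a * Uᵀ) * (U * diagonal e * Uᵀ)).trace = ∑ k, a k * e k := by
  have : (U * diagonal a * Uᵀ) * (U * diagonal e * Uᵀ) =
      U * (diagonal a * diagonal e) * Uᵀ := by
    calc (U * diagonal a * Uᵀ) * (U * diagonal e * Uᵀ)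
        = U * diagonal a * (Uᵀ * U) * diagonal e * Uᵀ := by simp only [Matrix.mul_assoc]
      _ = U * (diagonal a * diagonal e) * Uᵀ := by
          rw [h1, Matrix.mul_one]; simp only [Matrix.mul_assoc]
  rw [this, Matrix.trace_mul_comm, ← Matrix.mul_assoc, h1, Matrix.one_mul,
    Matrix.diagonal_mul_diagonal, Matrix.trace_diagonal]

theorem exists_min {lam Lam : ℝ} (hl : lam ≤ Lam) {X : Matrix (Fin n) (Fin n) ℝ}
    (hX : X.IsHermitian) : ∃ A, Adm lam Lam A ∧ (A * X).trace = pucciMin lam Lam X := by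
  obtain ⟨U, h1, h2, h3⟩ := spec hX
  refine ⟨U * diagonal (fun k => if 0 ≤ hX.eigenvalues k then lam else Lam) * Uᵀ,
    adm_conj h2 ?_, ?_⟩
  · intro k
    by_cases h : 0 ≤ hX.eigenvalues k
    · simp only [h, if_true]; exact ⟨le_rfl, hl⟩
    · simp only [h, if_false]; exact ⟨hl, le_rfl⟩
  · have h4 := trace_opt h1 (fun k => if 0 ≤ hX.eigenvalues k then lam else Lam) hX.eigenvalues
    rw [← h3] at h4
    rw [h4, pmin_eq hX]
    refine Finset.sum_congr rfl fun k _ => ?_
    by_cases h : 0 ≤ hX.eigenvalues k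
    · simp only [h, if_true]
      rw [max_eq_left h, max_eq_right (by linarith)]; ring
    · simp only [h, if_false]
      push Not at h
      rw [max_eq_right h.le, max_eq_left (by linarith)]; ring

theorem exists_max {lam Lam : ℝ} (hl : lam ≤ Lam) {X : Matrix (Fin n) (Fin n) ℝ}
    (hX : X.IsHermitian) : ∃ A, Adm lam Lam A ∧ (A * X).trace = pucciMax lam Lam X := by
  obtain ⟨U, h1, h2, h3⟩ := spec hX
  refine ⟨U * diagonal (fun k => if 0 ≤ hX.eigenvalues k then Lam else lam) * Uᵀ,
    adm_conj h2 ?_, ?_⟩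
  · intro k
    by_cases h : 0 ≤ hX.eigenvalues k
    · simp only [h, if_true]; exact ⟨hl, le_rfl⟩
    · simp only [h, if_false]; exact ⟨le_rfl, hl⟩
  · have h4 := trace_opt h1 (fun k => if 0 ≤ hX.eigenvalues k then Lam else lam) hX.eigenvalues
    rw [← h3] at h4
    rw [h4, pmax_eq hX]
    refine Finset.sum_congr rfl fun k _ => ?_
    by_cases h : 0 ≤ hX.eigenvalues k
    · simp only [h, if_true]
      rw [max_eq_left h, max_eq_right (by linarith)]; ring
    · simp only [h, if_false]
      push Not at h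
      rw [max_eq_right h.le, max_eq_left (by linarith)]; ring

theorem adm_diag {lam Lam : ℝ} {a : Fin n → ℝ} (ha : ∀ k, lam ≤ a k ∧ a k ≤ Lam) :
    Adm lam Lam (diagonal a) := by
  have := adm_conj (U := (1 : Matrix (Fin n) (Fin n) ℝ)) (lam := lam) (Lam := Lam)
    (by rw [Matrix.transpose_one, Matrix.one_mul]) ha
  rwa [Matrix.transpose_one, Matrix.mul_one, Matrix.one_mul] at this

theorem diag_ent {lam Lam : ℝ} {A : Matrix (Fin n) (Fin n) ℝ} (hA : Adm lam Lam A) (i : Fin n) :
    lam ≤ A i i ∧ A i i ≤ Lam := by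
  have h := hA.2 (Pi.single i 1)
  rw [Matrix.mulVec_single_one] at h
  simpa using h

theorem abs_ent {lam Lam : ℝ} (hl : 0 < lam) {A : Matrix (Fin n) (Fin n) ℝ}
    (hA : Adm lam Lam A) (i j : Fin n) : |A i j| ≤ Lam := by
  have hs : A j i = A i j := by
    have := congrFun (congrFun hA.1 i) j
    rwa [Matrix.transpose_apply] at this
  have hp : ∀ v : Fin n → ℝ, 0 ≤ v ⬝ᵥ (A *ᵥ v) := by
    intro v
    refine le_trans ?_ (hA.2 v).1
    refine mul_nonneg hl.le ?_
    exact Finset.sum_nonneg fun k _ => mul_self_nonneg _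
  have h1 := hp (Pi.single i 1 + Pi.single j 1)
  have h2 := hp (Pi.single i 1 - Pi.single j 1)
  rw [Matrix.mulVec_add, Matrix.mulVec_single_one, Matrix.mulVec_single_one] at h1
  rw [Matrix.mulVec_sub, Matrix.mulVec_single_one, Matrix.mulVec_single_one] at h2
  simp only [add_dotProduct, dotProduct_add, single_dotProduct, one_mul, Matrix.col_apply] at h1
  simp only [sub_dotProduct, dotProduct_sub, single_dotProduct, one_mul, Matrix.col_apply] at h2
  have h3 := (diag_ent hA i).2
  have h4 := (diag_ent hA j).2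
  rw [hs] at h1 h2
  rw [abs_le]
  constructor <;> linarith

theorem abs_trace {lam Lam δ : ℝ} (hl : 0 < lam) (hL : lam ≤ Lam)
    {A Z : Matrix (Fin n) (Fin n) ℝ}
    (hA : Adm lam Lam A) (hZ : ∀ i j, |Z i j| ≤ δ) : |(A * Z).trace| ≤ (n : ℝ) ^ 2 * Lam * δ := by
  unfold Matrix.trace
  calc |∑ i, Matrix.diag (A * Z) i| ≤ ∑ i, |Matrix.diag (A * Z) i| := Finset.abs_sum_le_sum_abs _ _
    _ ≤ ∑ i : Fin n, ∑ j : Fin n, Lam * δ := by
        refine Finset.sum_le_sum fun i _ => ?_
        rw [Matrix.diag_apply, Matrix.mul_apply]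
        refine (Finset.abs_sum_le_sum_abs _ _).trans (Finset.sum_le_sum fun j _ => ?_)
        rw [abs_mul]
        exact mul_le_mul (abs_ent hl hA i j) (hZ j i) (abs_nonneg _) (by linarith)
    _ = (n : ℝ) ^ 2 * Lam * δ := by
        simp only [Finset.sum_const, Finset.card_univ, Fintype.card_fin, nsmul_eq_mul]
        ring

theorem puc_neg {lam Lam : ℝ} (hL : lam ≤ Lam) {X : Matrix (Fin n) (Fin n) ℝ}
    (hX : X.IsHermitian) : pucciMin lam Lam (-X) = -pucciMax lam Lam X := by
  have hX' : (-X).IsHermitian := hX.neg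
  apply le_antisymm
  · obtain ⟨A, hA, h⟩ := exists_max hL hX
    have := (trace_bounds hX' hA).1
    rw [Matrix.mul_neg, Matrix.trace_neg, h] at this
    exact this
  · obtain ⟨A, hA, h⟩ := exists_min hL hX'
    have := (trace_bounds hX hA).2
    rw [Matrix.mul_neg, Matrix.trace_neg] at h
    linarith

theorem puc : S_PUC := by
  intro n lam Lam hl hL
  refine ⟨?_, ?_, ?_, ?_⟩
  · intro X Y hX hY hXY
    have key : ∀ A, Adm lam Lam A → (A * X).trace ≤ (A * Y).trace := by
      intro A hA
      have h1 := (trace_bounds hXY.1 hA).1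
      have h2 : 0 ≤ pucciMin lam Lam (Y - X) := by
        rw [pmin_eq hXY.1]
        refine Finset.sum_nonneg fun k _ => ?_
        have h3 := hXY.eigenvalues_nonneg k
        rw [max_eq_right (a := -_) (by linarith), max_eq_left h3]
        have := mul_nonneg hl.le h3
        linarith
      rw [Matrix.mul_sub, Matrix.trace_sub] at h1
      linarith
    constructor
    · obtain ⟨A, hA, h⟩ := exists_min hL hY
      rw [← h]
      exact (trace_bounds hX hA).1.trans (key A hA)
    · obtain ⟨A, hA, h⟩ := exists_max hL hX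
      rw [← h]
      exact (key A hA).trans (trace_bounds hY hA).2
  · intro x
    have hD : (diagonal x).IsHermitian := Matrix.isHermitian_diagonal x
    have htr : ∀ A : Matrix (Fin n) (Fin n) ℝ, (A * diagonal x).trace = ∑ i, x i * A i i := by
      intro A
      unfold Matrix.trace
      refine Finset.sum_congr rfl fun i _ => ?_
      rw [Matrix.diag_apply, Matrix.mul_diagonal, mul_comm]
    have e1 : lam * ∑ i, max (x i) 0 - Lam * ∑ i, max (-x i) 0 =
        ∑ i, (lam * max (x i) 0 - Lam * max (-x i) 0) := by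
      rw [Finset.sum_sub_distrib, Finset.mul_sum, Finset.mul_sum]
    have e2 : Lam * ∑ i, max (x i) 0 - lam * ∑ i, max (-x i) 0 =
        ∑ i, (Lam * max (x i) 0 - lam * max (-x i) 0) := by
      rw [Finset.sum_sub_distrib, Finset.mul_sum, Finset.mul_sum]
    rw [e1, e2]
    constructor
    · apply le_antisymm
      · have hA : Adm lam Lam (diagonal (fun i => if 0 ≤ x i then lam else Lam)) := by
          refine adm_diag fun k => ?_
          by_cases h : 0 ≤ x k
          · simp only [h, if_true]; exact ⟨le_rfl, hL⟩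
          · simp only [h, if_false]; exact ⟨hL, le_rfl⟩
        refine (trace_bounds hD hA).1.trans (le_of_eq ?_)
        rw [htr]
        refine Finset.sum_congr rfl fun i _ => ?_
        rw [Matrix.diagonal_apply_eq]
        by_cases h : 0 ≤ x i
        · simp only [h, if_true]
          rw [max_eq_left h, max_eq_right (by linarith)]; ring
        · simp only [h, if_false]
          push Not at h
          rw [max_eq_right h.le, max_eq_left (by linarith)]; ring
      · obtain ⟨A, hA, h⟩ := exists_min hL hD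
        rw [← h, htr]
        exact Finset.sum_le_sum fun i _ => ent_lo (diag_ent hA i).1 (diag_ent hA i).2
    · apply le_antisymm
      · obtain ⟨A, hA, h⟩ := exists_max hL hD
        rw [← h, htr]
        exact Finset.sum_le_sum fun i _ => ent_hi (diag_ent hA i).1 (diag_ent hA i).2
      · have hA : Adm lam Lam (diagonal (fun i => if 0 ≤ x i then Lam else lam)) := by
          refine adm_diag fun k => ?_
          by_cases h : 0 ≤ x k
          · simp only [h, if_true]; exact ⟨hL, le_rfl⟩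
          · simp only [h, if_false]; exact ⟨le_rfl, hL⟩
        refine le_trans (le_of_eq ?_) (trace_bounds hD hA).2
        rw [htr]
        refine Finset.sum_congr rfl fun i _ => ?_
        rw [Matrix.diagonal_apply_eq]
        by_cases h : 0 ≤ x i
        · simp only [h, if_true]
          rw [max_eq_left h, max_eq_right (by linarith)]; ring
        · simp only [h, if_false]
          push Not at h
          rw [max_eq_right h.le, max_eq_left (by linarith)]; ring
  · intro X Y hX hY δ hδ hXY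
    have key : ∀ A, Adm lam Lam A → |(A * Y).trace - (A * X).trace| ≤ (n : ℝ) ^ 2 * Lam * δ := by
      intro A hA
      rw [← Matrix.trace_sub, ← Matrix.mul_sub]
      exact abs_trace hl hL hA fun i j => by rw [Matrix.sub_apply]; exact hXY i j
    constructor
    · rw [abs_le]
      obtain ⟨A, hA, h⟩ := exists_min hL hX
      obtain ⟨B, hB, h'⟩ := exists_min hL hY
      have a1 := (trace_bounds hY hA).1
      have a2 := (trace_bounds hX hB).1
      have b1 := abs_le.1 (key A hA)
      have b2 := abs_le.1 (key B hB)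
      constructor <;> linarith [b1.1, b1.2, b2.1, b2.2]
    · rw [abs_le]
      obtain ⟨A, hA, h⟩ := exists_max hL hX
      obtain ⟨B, hB, h'⟩ := exists_max hL hY
      have a1 := (trace_bounds hY hA).2
      have a2 := (trace_bounds hX hB).2
      have b1 := abs_le.1 (key A hA)
      have b2 := abs_le.1 (key B hB)
      constructor <;> linarith [b1.1, b1.2, b2.1, b2.2]
  · intro X hX
    refine ⟨puc_neg hL hX, ?_⟩
    have := puc_neg hL hX.neg
    rw [neg_neg] at this
    linarith

end Pool.Agent.Q208.WE
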