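import Pool.Agent.Q61.WE.Stm

set_option autoImplicit false

/-! Project WE: the second derivative test and its consequences. -/

namespace Pool.Agent.Q208.WE

open Pool.Agent.Q61.WE
open MeasureTheory Filter Topology Set Metric Matrix
open scoped ENNReal NNReal

theorem sum_single {n : ℕ} (v : Fin n → ℝ) :
    (WithLp.toLp 2 v : E n) = ∑ i, v i • (EuclideanSpace.single i (1 : ℝ) : E n) := by
  ext j
  simp only [WithLp.ofLp_sum, WithLp.ofLp_smul, Finset.sum_apply, Pi.smul_apply,
    smul_eq_mul, PiLp.ofLp_single]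
  simp [Pi.single_apply]

theorem hess_quad {n : ℕ} (u : E n → ℝ) (y : E n) (v : Fin n → ℝ) :
    v ⬝ᵥ (Hess u y *ᵥ v) =
      fderiv ℝ (fderiv ℝ u) y (WithLp.toLp 2 v : E n) (WithLp.toLp 2 v : E n) := by
  rw [sum_single v]
  simp only [map_sum, map_smul, _root_.sum_apply, _root_.smul_apply,
    smul_eq_mul, dotProduct, Matrix.mulVec, Hess, Finset.mul_sum]
  rw [Finset.sum_comm]
  refine Finset.sum_congr rfl fun i _ => Finset.sum_congr rfl fun j _ => ?_
  ring

theorem herm {n : ℕ} {u : E n → ℝ} {y : E n} (h : ContDiffAt ℝ 2 u y) :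
    (Hess u y).IsHermitian := by
  have hs : IsSymmSndFDerivAt ℝ u y := h.isSymmSndFDerivAt (by simp)
  ext i j
  rw [Matrix.conjTranspose_apply, star_trivial]
  exact hs _ _

theorem sdt : S_SDT := by
  intro n f x hf hmin
  refine Matrix.PosSemidef.of_dotProduct_mulVec_nonneg (herm hf) fun v => ?_
  rw [star_trivial, hess_quad]
  set w : E n := WithLp.toLp 2 v with hw
  have hev : ∀ᶠ y in 𝓝 x, ContDiffAt ℝ 2 f y := hf.eventually (by simp)
  have hline : HasDerivAt (fun t : ℝ => x + t • w) w 0 := by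
    have := ((hasDerivAt_id (0:ℝ)).smul_const w).const_add x
    simpa using this
  have hlc : Tendsto (fun t : ℝ => x + t • w) (𝓝 0) (𝓝 x) := by
    have : Continuous (fun t : ℝ => x + t • w) := by fun_prop
    have h := this.tendsto 0
    simpa using h
  have hd1 : ∀ᶠ t : ℝ in 𝓝 0, deriv (fun t : ℝ => f (x + t • w)) t =
      fderiv ℝ f (x + t • w) w := by
    filter_upwards [hlc.eventually hev] with t ht
    have h1 : HasFDerivAt f (fderiv ℝ f (x + t • w)) (x + t • w) :=
      (ht.differentiableAt (by norm_num)).hasFDerivAt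
    have h2 : HasDerivAt (fun t : ℝ => x + t • w) w t := by
      have := ((hasDerivAt_id t).smul_const w).const_add x
      simpa using this
    exact (h1.comp_hasDerivAt t h2).deriv
  have hd2 : deriv (deriv (fun t : ℝ => f (x + t • w))) 0 = fderiv ℝ (fderiv ℝ f) x w w := by
    have h0 : deriv (fun t : ℝ => f (x + t • w)) =ᶠ[𝓝 0]
        fun t => fderiv ℝ f (x + t • w) w := hd1
    rw [h0.deriv_eq]
    have hdf : HasFDerivAt (fderiv ℝ f) (fderiv ℝ (fderiv ℝ f) x) x := by
      have h3 : ContDiffAt ℝ 1 (fderiv ℝ f) x := hf.fderiv_right (by norm_num)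
      exact (h3.differentiableAt (by norm_num)).hasFDerivAt
    have hdf' : HasFDerivAt (fderiv ℝ f) (fderiv ℝ (fderiv ℝ f) x) (x + (0:ℝ) • w) := by
      simpa using hdf
    have h4 := hdf'.comp_hasDerivAt (0:ℝ) hline
    have h5 := h4.clm_apply (hasDerivAt_const (0:ℝ) w)
    simpa using h5.deriv
  have hgmin : IsLocalMin (fun t : ℝ => f (x + t • w)) 0 := by
    have h6 : ∀ᶠ y in 𝓝 x, f x ≤ f y := hmin
    have h7 := hlc.eventually h6
    show ∀ᶠ t : ℝ in 𝓝 0, f (x + (0:ℝ) • w) ≤ f (x + t • w)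
    filter_upwards [h7] with t ht
    simpa using ht
  rw [← hd2]
  by_contra hneg
  push Not at hneg
  have hcont : ContinuousAt (fun t : ℝ => f (x + t • w)) 0 := by
    have h8 : ContinuousAt f (x + (0:ℝ) • w) := by simpa using hf.continuousAt
    exact ContinuousAt.comp h8 (by fun_prop)
  have hmax := isLocalMax_of_deriv_deriv_neg hneg hgmin.deriv_eq_zero hcont
  have hconst : (fun t : ℝ => f (x + t • w)) =ᶠ[𝓝 0] fun _ => f (x + (0:ℝ) • w) := by
    have a1 : ∀ᶠ t : ℝ in 𝓝 0, f (x + (0:ℝ) • w) ≤ f (x + t • w) := hgmin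
    have a2 : ∀ᶠ t : ℝ in 𝓝 0, f (x + t • w) ≤ f (x + (0:ℝ) • w) := hmax
    filter_upwards [a1, a2] with t h1 h2
    exact le_antisymm h2 h1
  have hz : deriv (deriv (fun t : ℝ => f (x + t • w))) 0 = 0 := by
    have h9 := hconst.deriv
    rw [h9.deriv_eq]
    simp
  linarith

end Pool.Agent.Q208.WE
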