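import Pool.Agent.Q61.WE.Stm

set_option autoImplicit false

/-! Project WE: classical solutions are viscosity solutions; the trivial refinements; Theta. -/

namespace Pool.Agent.Q208.WE

open Pool.Agent.Q61.WE
open MeasureTheory Filter Topology Set Metric Matrix
open scoped ENNReal NNReal

theorem hess_sub {n : ℕ} {u φ : E n → ℝ} {x : E n} (hu : ContDiffAt ℝ 2 u x)
    (hφ : ContDiffAt ℝ 2 φ x) : Hess (fun y => u y - φ y) x = Hess u x - Hess φ x := by
  have e1 : ∀ᶠ y in 𝓝 x, ContDiffAt ℝ 2 u y := hu.eventually (by simp)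
  have e2 : ∀ᶠ y in 𝓝 x, ContDiffAt ℝ 2 φ y := hφ.eventually (by simp)
  have h1 : fderiv ℝ (fun y => u y - φ y) =ᶠ[𝓝 x] fun y => fderiv ℝ u y - fderiv ℝ φ y := by
    filter_upwards [e1, e2] with y h1 h2
    exact fderiv_fun_sub (h1.differentiableAt (by norm_num)) (h2.differentiableAt (by norm_num))
  have d1 : DifferentiableAt ℝ (fderiv ℝ u) x := by
    have h3 : ContDiffAt ℝ 1 (fderiv ℝ u) x := hu.fderiv_right (by norm_num)
    exact h3.differentiableAt (by norm_num)
  have d2 : DifferentiableAt ℝ (fderiv ℝ φ) x := by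
    have h3 : ContDiffAt ℝ 1 (fderiv ℝ φ) x := hφ.fderiv_right (by norm_num)
    exact h3.differentiableAt (by norm_num)
  ext i j
  unfold Hess
  rw [h1.fderiv_eq, fderiv_fun_sub d1 d2]
  rfl

theorem visc (hP : S_PUC) (hS : S_SDT) (hB : S_HB) : S_VISC := by
  intro n lam Lam hl hL u hu hH
  obtain ⟨hmono, _, _, _⟩ := hP n lam Lam hl hL
  refine ⟨hu.continuous.continuousOn, fun x _ φ hφ => ?_⟩
  have hux : ContDiffAt ℝ 2 u x := hu.contDiffAt
  have hHu := (hB n).2.2.1 u x hux
  have hHφ := (hB n).2.2.1 φ x hφ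
  constructor
  · intro hmin
    have h1 := hS n (fun y => u y - φ y) x (hux.sub hφ) hmin
    rw [hess_sub hux hφ] at h1
    exact (hmono _ _ hHφ hHu h1).1.trans (hH x).1
  · intro hmax
    have h2 : IsLocalMin (fun y => φ y - u y) x := by
      have := hmax.neg
      refine this.congr ?_
      filter_upwards with y
      ring
    have h1 := hS n (fun y => φ y - u y) x (hφ.sub hux) h2
    rw [hess_sub hφ hux] at h1
    exact (hH x).2.trans (hmono _ _ hHu hHφ h1).2

theorem contDiff_par {n : ℕ} (c M : ℝ) (l : E n) :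
    ContDiff ℝ 2 (fun z : E n => c + inner ℝ l z + M / 2 * ‖z‖ ^ 2) := by
  have h1 : ContDiff ℝ 2 (fun z : E n => inner ℝ l z) := (innerSL ℝ l).contDiff
  have h2 : ContDiff ℝ 2 (fun z : E n => ‖z‖ ^ 2) := contDiff_norm_sq ℝ
  exact (contDiff_const.add h1).add (contDiff_const.mul h2)

theorem hess_par {n : ℕ} (c M : ℝ) (l y : E n) (i : Fin n) :
    Hess (fun z : E n => c + inner ℝ l z + M / 2 * ‖z‖ ^ 2) y i i = M := by
  have h1 : fderiv ℝ (fun z : E n => c + inner ℝ l z + M / 2 * ‖z‖ ^ 2) =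
      fun z => innerSL ℝ l + M • innerSL ℝ z := by
    funext z
    have a1 : HasFDerivAt (fun z : E n => inner ℝ l z) (innerSL ℝ l) z :=
      (innerSL ℝ l).hasFDerivAt
    have a2 : HasFDerivAt (fun z : E n => ‖z‖ ^ 2) (2 • innerSL ℝ z) z :=
      (hasStrictFDerivAt_norm_sq z).hasFDerivAt
    have a3 : HasFDerivAt (fun z : E n => c + inner ℝ l z + M / 2 * ‖z‖ ^ 2)
        (innerSL ℝ l + (M / 2) • (2 • innerSL ℝ z)) z := (a1.const_add c).add (a2.const_mul (M / 2))
    rw [a3.fderiv]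
    ext w
    simp
    ring
  unfold Hess
  rw [h1]
  have a4 : HasFDerivAt (fun z : E n => innerSL ℝ l + M • innerSL ℝ z)
      (M • (innerSL ℝ : E n →L[ℝ] E n →L[ℝ] ℝ)) y :=
    ((innerSL ℝ : E n →L[ℝ] E n →L[ℝ] ℝ).hasFDerivAt.const_smul M).const_add _
  rw [a4.fderiv]
  show M * inner ℝ (EuclideanSpace.single i (1:ℝ) : E n) (EuclideanSpace.single i (1:ℝ)) = M
  rw [real_inner_self_eq_norm_sq]
  simp

theorem theta (hS : S_SDT) (_hB : S_HB) : S_THETA := by
  intro n u hu y hy i
  unfold Theta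
  refine le_iInf fun M => le_iInf fun hM => le_iInf fun hT => ?_
  apply ENNReal.ofReal_le_ofReal
  obtain ⟨⟨c, l, h1, h2⟩, ⟨c', l', h3, h4⟩⟩ := hT
  have huy : ContDiffAt ℝ 2 u y := hu.contDiffAt
  have hball : ∀ᶠ z in 𝓝 y, z ∈ ball (0 : E n) 1 := isOpen_ball.mem_nhds hy
  rw [abs_le]
  constructor
  · -- from below
    have hpc : ContDiffAt ℝ 2 (fun z : E n => c' + inner ℝ l' z + (-M) / 2 * ‖z‖ ^ 2) y :=
      (contDiff_par c' (-M) l').contDiffAt
    have hmin : IsLocalMin
        (fun z => u z - (c' + inner ℝ l' z + (-M) / 2 * ‖z‖ ^ 2)) y := by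
      show ∀ᶠ z in 𝓝 y, _
      filter_upwards [hball] with z hz
      have := h4 z hz
      have e1 : c' + inner ℝ l' y + (-M) / 2 * ‖y‖ ^ 2 = u y := by rw [h3]; ring
      have e2 : c' + inner ℝ l' z + (-M) / 2 * ‖z‖ ^ 2 =
        c' + inner ℝ l' z - M / 2 * ‖z‖ ^ 2 := by ring
      rw [e1, e2]
      linarith
    have h5 := (hS n _ y (huy.sub hpc) hmin).diag_nonneg (i := i)
    rw [hess_sub huy hpc, Matrix.sub_apply, hess_par] at h5
    linarith
  · have hpc : ContDiffAt ℝ 2 (fun z : E n => c + inner ℝ l z + M / 2 * ‖z‖ ^ 2) y :=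
      (contDiff_par c M l).contDiffAt
    have hmin : IsLocalMin
        (fun z => (c + inner ℝ l z + M / 2 * ‖z‖ ^ 2) - u z) y := by
      show ∀ᶠ z in 𝓝 y, _
      filter_upwards [hball] with z hz
      have := h2 z hz
      rw [← h1]
      linarith
    have h5 := (hS n _ y (hpc.sub huy) hmin).diag_nonneg (i := i)
    rw [hess_sub hpc huy, Matrix.sub_apply, hess_par] at h5
    linarith

theorem ref (hP : S_PUC) (hB : S_HB) : S_REF := by
  intro n lam Lam T x hl hL
  obtain ⟨_, _, _, hneg⟩ := hP n lam Lam hl hL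
  obtain ⟨_, hBneg, _, hB0, _, _⟩ := hB n
  have hz : ∀ y : E n, Hess (fun _ : E n => (0:ℝ)) y = 0 := by
    intro y
    apply hB0
    have : tsupport (fun _ : E n => (0:ℝ)) = ∅ := by
      rw [tsupport_eq_empty_iff]; rfl
    rw [this]
    exact Set.notMem_empty y
  have hts : tsupport (fun _ : E n => (0:ℝ)) = ∅ := by
    rw [tsupport_eq_empty_iff]; rfl
  refine ⟨?_, ?_, ?_, ?_⟩
  · intro hK U _ _ η hη
    refine ⟨fun _ => 0, contDiff_const, HasCompactSupport.zero, ?_, ?_, ?_, ?_⟩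
    · rw [hts]; exact Set.empty_subset _
    · intro y; simpa using hη.le
    · intro y; rw [hz, add_zero]; exact hK
    · rw [zero_mul, zero_sub]
      exact le_trans (by linarith) measureReal_nonneg
  · intro hK hk U _ _ η hη
    refine ⟨fun _ => 0, contDiff_const, HasCompactSupport.zero, ?_, ?_, ?_, ?_⟩
    · rw [hts]; exact Set.empty_subset _
    · intro y; simpa using hη.le
    · intro y; rw [hz, add_zero]; exact hK
    · have : {y : E n | y ∈ U ∧ ∃ k, T ≤ |x k + Hess (fun _ : E n => (0:ℝ)) y k k|} = U := by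
        ext y
        simp only [Set.mem_ofPred_eq, hz, Matrix.zero_apply, add_zero]
        exact ⟨fun h => h.1, fun h => ⟨h, hk⟩⟩
      rw [this, one_mul]
      linarith
  · intro μ hR U hU hb η hη
    obtain ⟨φ, h1, h2, h3, h4, h5, h6⟩ := hR U hU hb η hη
    have hts' : tsupport (fun y => -φ y) = tsupport φ := by
      unfold tsupport
      congr 1
      ext y
      simp
    refine ⟨fun y => -φ y, h1.neg, ?_, ?_, ?_, ?_, ?_⟩
    · unfold HasCompactSupport
      rw [hts']; exact h2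
    · rw [hts']; exact h3
    · intro y; rw [abs_neg]; exact h4 y
    · intro y
      have e : Matrix.diagonal (-x) + Hess (fun y => -φ y) y =
          -(Matrix.diagonal x + Hess φ y) := by
        rw [hBneg, neg_add, Matrix.diagonal_neg]
        rfl
      obtain ⟨k1, k2, k3⟩ := h5 y
      obtain ⟨n1, n2⟩ := hneg _ k1
      rw [e]
      refine ⟨k1.neg, ?_, ?_⟩
      · rw [n1]; linarith
      · rw [n2]; linarith
    · have : {y : E n | y ∈ U ∧ ∃ k, T ≤ |(-x) k + Hess (fun y => -φ y) y k k|} =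
          {y : E n | y ∈ U ∧ ∃ k, T ≤ |x k + Hess φ y k k|} := by
        ext y
        simp only [Set.mem_ofPred_eq, hBneg, Matrix.neg_apply, Pi.neg_apply]
        refine and_congr_right fun _ => exists_congr fun k => ?_
        rw [← neg_add, abs_neg]
      rw [this]
      exact h6
  · intro μ μ' hμ hR U hU hb η hη
    obtain ⟨φ, h1, h2, h3, h4, h5, h6⟩ := hR U hU hb η hη
    refine ⟨φ, h1, h2, h3, h4, h5, le_trans ?_ h6⟩
    have := mul_le_mul_of_nonneg_right hμ (measureReal_nonneg (μ := volume) (s := U))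
    linarith

end Pool.Agent.Q208.WE
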